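import Pool.Agent.H36.MA.Final

set_option autoImplicit false

open Metric Set Filter Topology InnerProductSpace
open Pool.Agent.H36.MA

namespace Pool.Agent.H36.MAResult

/-- Let `φ` be a maximal plurisubharmonic function of class `C²` on an open set `Ω ⊆ ℂ²`. Then the
open set `{dd^c φ ≠ 0}` is foliated by holomorphic discs along which `φ` is harmonic; moreover, in
every chart of the foliation, every holomorphic disc along which `φ` is harmonic is contained in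
one plaque. -/
theorem result {Ω : Set (ℂ × ℂ)} (hΩ : IsOpen Ω) {φ : ℂ × ℂ → ℝ} (hφ : ContDiffOn ℝ 2 φ Ω)
    (hmax : IsMaximalPSH Ω φ) :
    ∃ 𝒜 : Set (OpenPartialHomeomorph (ℂ × ℂ) (ℂ × ℂ)),
      IsHarmonicDiscFoliation (hessNe Ω φ) φ 𝒜 ∧
      ∀ Ψ ∈ 𝒜, ∀ (c : ℂ) (r : ℝ) (f : ℂ → ℂ × ℂ), DifferentiableOn ℂ f (ball c r) →
        MapsTo f (ball c r) Ψ.target → HarmonicOnNhd (fun ζ => φ (f ζ)) (ball c r) →
        ∀ ζ ∈ ball c r, (Ψ.symm (f ζ)).2 = (Ψ.symm (f c)).2 := by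
  set 𝒜 : Set (OpenPartialHomeomorph (ℂ × ℂ) (ℂ × ℂ)) := {Ψ |
      Ψ.source = ball (0 : ℂ) 1 ×ˢ ball (0 : ℂ) 1 ∧ Ψ.target ⊆ hessNe Ω φ ∧
      (∀ t ∈ ball (0 : ℂ) 1, DifferentiableOn ℂ (fun z => Ψ (z, t)) (ball 0 1)) ∧
      (∀ t ∈ ball (0 : ℂ) 1, ∀ z ∈ ball (0 : ℂ) 1, deriv (fun z => Ψ (z, t)) z ≠ 0) ∧
      (∀ t ∈ ball (0 : ℂ) 1, HarmonicOnNhd (fun z => φ (Ψ (z, t))) (ball 0 1)) ∧
      (∀ (c : ℂ) (r : ℝ) (f : ℂ → ℂ × ℂ), DifferentiableOn ℂ f (ball c r) →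
        MapsTo f (ball c r) Ψ.target → HarmonicOnNhd (fun ζ => φ (f ζ)) (ball c r) →
        ∀ ζ ∈ ball c r, (Ψ.symm (f ζ)).2 = (Ψ.symm (f c)).2)} with h𝒜
  have hu : ∀ Ψ ∈ 𝒜, ∀ (c : ℂ) (r : ℝ) (f : ℂ → ℂ × ℂ), DifferentiableOn ℂ f (ball c r) →
        MapsTo f (ball c r) Ψ.target → HarmonicOnNhd (fun ζ => φ (f ζ)) (ball c r) →
        ∀ ζ ∈ ball c r, (Ψ.symm (f ζ)).2 = (Ψ.symm (f c)).2 := fun Ψ hΨ => hΨ.2.2.2.2.2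
  refine ⟨𝒜, ⟨fun Ψ hΨ => hΨ.1, ?_, fun Ψ hΨ => hΨ.2.2.1, fun Ψ hΨ => hΨ.2.2.2.1,
    fun Ψ hΨ => hΨ.2.2.2.2.1, ?_⟩, hu⟩
  · apply Subset.antisymm
    · intro x hx
      obtain ⟨Ψ, hΨ, hx⟩ := mem_iUnion₂.1 hx
      exact hΨ.2.1 hx
    · intro x hx
      obtain ⟨Ψ, h1, h2, h3, h4, h5, h6, h7⟩ := exists_chart hΩ hφ hmax hx
      exact mem_iUnion₂.2 ⟨Ψ, ⟨h1, h3, h4, h5, h6, h7⟩, h2⟩
  · rintro Ψ hΨ Ψ' hΨ' ⟨z0, t0⟩ hx hx'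
    have hopen : IsOpen (Ψ.source ∩ Ψ ⁻¹' Ψ'.target) := Ψ.isOpen_inter_preimage Ψ'.open_target
    obtain ⟨r, hr, hsub⟩ := Metric.mem_nhds_iff.1 (hopen.mem_nhds ⟨hx, hx'⟩)
    refine ⟨ball (z0, t0) r, ball_mem_nhds _ hr, ?_⟩
    have key : ∀ y ∈ ball ((z0, t0) : ℂ × ℂ) r,
        (Ψ'.symm (Ψ y)).2 = (Ψ'.symm (Ψ (z0, y.2))).2 := by
      rintro ⟨z, t⟩ hy
      rw [← ball_prod_same] at hy hsub
      obtain ⟨hz, ht⟩ := hy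
      simp only at hz ht
      have hmem : ∀ w ∈ ball z0 r, (w, t) ∈ Ψ.source ∩ Ψ ⁻¹' Ψ'.target := fun w hw =>
        hsub (mk_mem_prod hw ht)
      have hsrc : ∀ w ∈ ball z0 r, w ∈ ball (0 : ℂ) 1 ∧ t ∈ ball (0 : ℂ) 1 := by
        intro w hw
        have := (hmem w hw).1
        rw [hΨ.1] at this
        exact this
      have ht1 : t ∈ ball (0 : ℂ) 1 := (hsrc z hz).2
      have hd : DifferentiableOn ℂ (fun w => Ψ (w, t)) (ball z0 r) :=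
        (hΨ.2.2.1 t ht1).mono fun w hw => (hsrc w hw).1
      have hh : HarmonicOnNhd (fun w => φ (Ψ (w, t))) (ball z0 r) := fun w hw =>
        hΨ.2.2.2.2.1 t ht1 w (hsrc w hw).1
      exact hu Ψ' hΨ' z0 r (fun w => Ψ (w, t)) hd (fun w hw => (hmem w hw).2) hh z hz
    intro y hy y' hy' hyy
    rw [key y hy, key y' hy', hyy]

end Pool.Agent.H36.MAResult
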